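import Pool.Agent.helper45.TF.Defs2

/-!
Module DU (MP_5b8da6_gt): mod 2 duality.
-/

namespace Pool.Agent.helper45.TF

open Set Topology

theorem DU_eps {V : Type} [DecidableEq V] (s : Finset V) (u v : V) (h : u ≠ v) :
    (epsC s) s(u, v) = if u ∈ s ∧ v ∈ s then 1 else 0 := by
  unfold epsC
  rw [Finsupp.finset_sum_apply]
  simp only [Finsupp.single_apply]
  rw [Finset.sum_ite_eq']
  simp only [Finset.mem_filter, Finset.mk_mem_sym2_iff, Sym2.isDiag_iff_proj_eq]
  by_cases h1 : u ∈ s ∧ v ∈ s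
  · rw [if_pos ⟨h1, h⟩, if_pos h1]
  · rw [if_neg (fun h2 => h1 h2.1), if_neg h1]

theorem DU_eps_diag {V : Type} [DecidableEq V] (s : Finset V) (u : V) :
    (epsC s) s(u, u) = 0 := by
  unfold epsC
  rw [Finsupp.finset_sum_apply]
  simp only [Finsupp.single_apply]
  rw [Finset.sum_ite_eq']
  rw [if_neg]
  simp only [Finset.mem_filter, Sym2.isDiag_iff_proj_eq, not_true_eq_false, and_false,
    not_false_eq_true]

/-- elements of `simpB` as sums -/
theorem DU_repr {V : Type} [Fintype V] [DecidableEq V] (S : ClosedSurface V)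
    (x : Sym2 V →₀ ZMod 2) (hx : x ∈ simpB S Set.univ) :
    ∃ c : Finset V → ZMod 2, x = ∑ s ∈ S.faces, c s • epsC s := by
  unfold simpB at hx
  induction hx using Submodule.span_induction with
  | mem x h =>
    obtain ⟨s, hs, _, rfl⟩ := h
    refine ⟨fun t => if t = s then 1 else 0, ?_⟩
    rw [Finset.sum_eq_single s]
    · simp
    · intro t _ ht
      simp [ht]
    · intro h
      exact absurd hs h
  | zero => exact ⟨fun _ => 0, by simp⟩
  | add x y _ _ h1 h2 =>
    obtain ⟨c, rfl⟩ := h1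
    obtain ⟨c', rfl⟩ := h2
    refine ⟨fun s => c s + c' s, ?_⟩
    rw [← Finset.sum_add_distrib]
    exact Finset.sum_congr rfl (fun s _ => (add_smul _ _ _).symm)
  | smul a x _ h1 =>
    obtain ⟨c, rfl⟩ := h1
    refine ⟨fun s => a * c s, ?_⟩
    rw [Finset.smul_sum]
    exact Finset.sum_congr rfl (fun s _ => smul_smul _ _ _)

theorem DU_coeff {V : Type} [Fintype V] [DecidableEq V] (S : ClosedSurface V)
    (c : Finset V → ZMod 2) (u v : V) (h : u ≠ v) :
    (∑ s ∈ S.faces, c s • epsC s) s(u, v) =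
      ∑ s ∈ S.faces.filter (fun s => u ∈ s ∧ v ∈ s), c s := by
  rw [Finsupp.finset_sum_apply, Finset.sum_filter]
  apply Finset.sum_congr rfl
  intro s _
  rw [Finsupp.smul_apply, DU_eps s u v h]
  split_ifs <;> simp

theorem DU_zmod (a : ZMod 2) : a + a = 0 := by
  have : ∀ a : ZMod 2, a + a = 0 := by decide
  exact this a

theorem DU_zmod' (a b : ZMod 2) (h : a + b = 0) : a = b := by
  have : ∀ a b : ZMod 2, a + b = 0 → a = b := by decide
  exact this a b h

/-- the sum of all triangles is a cycle -/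
theorem DU_total {V : Type} [Fintype V] [DecidableEq V] (S : ClosedSurface V) :
    ∑ s ∈ S.faces, epsC s = 0 := by
  ext e
  induction e using Sym2.ind with
  | _ u v =>
    by_cases huv : u = v
    · subst huv
      rw [Finsupp.finset_sum_apply]
      simp only [DU_eps_diag, Finset.sum_const_zero, Finsupp.coe_zero, Pi.zero_apply]
    · have h := DU_coeff S (fun _ => 1) u v huv
      simp only [one_smul] at h
      rw [h, Finset.sum_const]
      by_cases hex : ∃ s ∈ S.faces, u ∈ s ∧ v ∈ s
      · rw [S.edge_two u v huv hex]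
        rfl
      · have : S.faces.filter (fun s => u ∈ s ∧ v ∈ s) = ∅ := by
          rw [Finset.filter_eq_empty_iff]
          intro s hs h
          exact hex ⟨s, hs, h⟩
        rw [this]
        simp

theorem DU : DU_stmt := by
  intro V _ _ S A hconn x hx hsupp
  obtain ⟨c, rfl⟩ := DU_repr S x hx
  -- coefficients at edges leaving `A` vanish
  have h0 : ∀ w y : V, w ∉ A → w ≠ y → ∑ s ∈ S.faces.filter (fun s => w ∈ s ∧ y ∈ s), c s = 0 := by
    intro w y hw hne
    rw [← DU_coeff S c w y hne]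
    by_contra hcon
    have h1 := hsupp s(w, y) (Finsupp.mem_support_iff.mpr hcon) w (Sym2.mem_mk_left w y)
    exact hw h1
  -- consecutive triangles
  have h1 : ∀ w : V, w ∉ A → ∀ s ∈ S.faces, ∀ t ∈ S.faces, w ∈ s → w ∈ t →
      (s ∩ t).card = 2 → c s = c t := by
    intro w hw s hs t ht hws hwt hcard
    have hne : s ≠ t := by
      intro h
      rw [h, Finset.inter_self, S.card_eq t ht] at hcard
      omega
    obtain ⟨y, hy, hyw⟩ : ∃ y ∈ s ∩ t, y ≠ w := by
      by_contra hcon
      push Not at hcon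
      have : s ∩ t ⊆ {w} := by
        intro y hy
        rw [Finset.mem_singleton]
        exact hcon y hy
      have := Finset.card_le_card this
      rw [Finset.card_singleton] at this
      omega
    have hy' := Finset.mem_inter.mp hy
    have h2 := S.edge_two w y (Ne.symm hyw) ⟨s, hs, hws, hy'.1⟩
    have h3 : ({s, t} : Finset (Finset V)) ⊆ S.faces.filter (fun s => w ∈ s ∧ y ∈ s) := by
      intro u hu
      rcases Finset.mem_insert.mp hu with h | h
      · rw [h]; exact Finset.mem_filter.mpr ⟨hs, hws, hy'.1⟩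
      · rw [Finset.mem_singleton.mp h]; exact Finset.mem_filter.mpr ⟨ht, hwt, hy'.2⟩
    have h4 : ({s, t} : Finset (Finset V)) = S.faces.filter (fun s => w ∈ s ∧ y ∈ s) := by
      apply Finset.eq_of_subset_of_card_le h3
      rw [h2, Finset.card_pair hne]
    have h5 := h0 w y hw (Ne.symm hyw)
    rw [← h4, Finset.sum_pair hne] at h5
    exact DU_zmod' _ _ h5
  -- all triangles at a vertex
  have h2 : ∀ w : V, w ∉ A → ∀ s ∈ S.faces, ∀ t ∈ S.faces, w ∈ s → w ∈ t → c s = c t := by
    intro w hw s hs t ht hws hwt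
    have h3 := S.link_conn w s hs t ht hws hwt
    induction h3 with
    | refl => rfl
    | tail _ hbc ih =>
      obtain ⟨hb, hc, hwb, hwc, hcard⟩ := hbc
      exact (ih hb hwb).trans (h1 w hw _ hb _ hc hwb hwc hcard)
  -- all triangles which meet the complement
  have h3 : ∀ w w' : V, w ∉ A → w' ∉ A → ∀ s ∈ S.faces, ∀ t ∈ S.faces, w ∈ s → w' ∈ t →
      c s = c t := by
    intro w w' hw hw' s hs t ht hws hwt
    have h4 := hconn w w' hw hw'
    clear hw'
    induction h4 generalizing t with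
    | refl => exact h2 w hw s hs t ht hws hwt
    | tail _ hbc ih =>
      obtain ⟨⟨u, hu, hbu, hcu⟩, hb, hc⟩ := hbc
      exact (ih u hu hbu).trans (h2 _ hc u hu t ht hcu hwt)
  -- the constant
  obtain ⟨k, hk⟩ : ∃ k : ZMod 2, ∀ s ∈ S.faces, (∃ w ∈ s, w ∉ A) → c s = k := by
    by_cases hex : ∃ s ∈ S.faces, ∃ w ∈ s, w ∉ A
    · obtain ⟨s, hs, w, hws, hw⟩ := hex
      refine ⟨c s, ?_⟩
      rintro t ht ⟨w', hwt, hw'⟩
      exact h3 w' w hw' hw t ht s hs hwt hws
    · refine ⟨0, ?_⟩
      intro s hs h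
      exact absurd ⟨s, hs, h⟩ hex
  have h5 : ∑ s ∈ S.faces, c s • epsC s = ∑ s ∈ S.faces, (c s + k) • epsC s := by
    simp only [add_smul]
    rw [Finset.sum_add_distrib, ← Finset.smul_sum, DU_total, smul_zero, add_zero]
  rw [h5]
  apply Submodule.sum_mem
  intro s hs
  by_cases hsA : ∀ v ∈ s, v ∈ A
  · exact Submodule.smul_mem _ _ (Submodule.subset_span ⟨s, hs, hsA, rfl⟩)
  · push Not at hsA
    rw [hk s hs hsA, DU_zmod, zero_smul]
    exact Submodule.zero_mem _

end Pool.Agent.helper45.TF
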