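import Pool.Agent.helper45.TF.Defs2

/-!
Module UN (MP_5b8da6_gt): uniform choice of the vertex function and of the subdivision.
-/

namespace Pool.Agent.helper45.TF

open Set Topology Filter

/-- in the preimage of a half-space some vertex with positive coordinate is in the half-space -/
theorem UN_vertex {V : Type} [Fintype V] [DecidableEq V] (S : ClosedSurface V) (p : V → E3)
    (h : Set E3) (hh : IsHalfSpace h) (z : V → ℝ) (hz : z ∈ S.pre p h) :
    ∃ v, 0 < z v ∧ p v ∈ h := by
  obtain ⟨⟨s, hs, hpos, hsum, hout⟩, hf⟩ := hz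
  by_contra hcon
  push Not at hcon
  obtain ⟨a, ha, c, hc⟩ := hh
  have hin : inner ℝ a (polyMap p z) = ∑ v, z v * inner ℝ a (p v) := by
    unfold polyMap
    rw [inner_sum]
    apply Finset.sum_congr rfl
    intro v _
    rw [inner_smul_right]
  obtain ⟨v0, hv0⟩ : ∃ v, 0 < z v := by
    by_contra h0
    push Not at h0
    have : ∑ v, z v ≤ 0 := Finset.sum_nonpos (fun v _ => h0 v)
    linarith
  rcases hc with hc | hc
  · have h1 : ∀ v, z v * c ≤ z v * inner ℝ a (p v) := by
      intro v
      rcases (hpos v).eq_or_lt with h0 | h0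
      · rw [← h0]; simp
      · have := hcon v h0
        rw [hc, Set.mem_setOf_eq, not_le] at this
        exact mul_le_mul_of_nonneg_left this.le h0.le
    have h2 : z v0 * c < z v0 * inner ℝ a (p v0) := by
      have := hcon v0 hv0
      rw [hc, Set.mem_setOf_eq, not_le] at this
      exact mul_lt_mul_of_pos_left this hv0
    have h3 : ∑ v, z v * c < ∑ v, z v * inner ℝ a (p v) :=
      Finset.sum_lt_sum (fun v _ => h1 v) ⟨v0, Finset.mem_univ _, h2⟩
    rw [← Finset.sum_mul, hsum, one_mul, ← hin] at h3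
    rw [hc, Set.mem_setOf_eq] at hf
    linarith
  · have h1 : ∀ v, z v * c ≤ z v * inner ℝ a (p v) := by
      intro v
      rcases (hpos v).eq_or_lt with h0 | h0
      · rw [← h0]; simp
      · have := hcon v h0
        rw [hc, Set.mem_setOf_eq, not_lt] at this
        exact mul_le_mul_of_nonneg_left this h0.le
    have h3 : ∑ v, z v * c ≤ ∑ v, z v * inner ℝ a (p v) := Finset.sum_le_sum (fun v _ => h1 v)
    rw [← Finset.sum_mul, hsum, one_mul, ← hin] at h3
    rw [hc, Set.mem_setOf_eq] at hf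
    linarith

/-- uniform continuity with `1 / n` -/
theorem UN_unif {X V : Type} [Fintype V] [PseudoMetricSpace X] [CompactSpace X]
    (f : C(X, V → ℝ)) (m : ℝ) (hm : 0 < m) :
    ∀ᶠ n : ℕ in atTop, ∀ x y : X, dist x y ≤ 1 / (n : ℝ) → ∀ v, |f x v - f y v| < m := by
  have h1 : UniformContinuous f := CompactSpace.uniformContinuous_of_continuous f.continuous
  rw [Metric.uniformContinuous_iff] at h1
  obtain ⟨δ, hδ, h2⟩ := h1 m hm
  have h3 : ∀ᶠ n : ℕ in atTop, (1 : ℝ) / n < δ :=
    tendsto_one_div_atTop_nhds_zero_nat.eventually (gt_mem_nhds hδ)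
  filter_upwards [h3] with n hn x y hxy v
  have h4 := h2 (lt_of_le_of_lt hxy hn)
  have h5 : dist (f x v) (f y v) ≤ dist (f x) (f y) := dist_le_pi_dist _ _ v
  rw [Real.dist_eq] at h5
  linarith

open Classical in
theorem UN : UN_stmt := by
  intro V _ _ S p h hh c w hc hw hc0
  -- the image of the 1-chain
  set I : Set (V → ℝ) := {z | ∃ γ ∈ c.support, ∃ t, γ t = z} with hI
  have hIpre : ∀ z ∈ I, z ∈ S.pre p h := by
    rintro z ⟨γ, hγ, t, rfl⟩
    exact hc γ hγ t
  have hIne : I.Nonempty := by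
    have : c.support.Nonempty := by
      rw [Finset.nonempty_iff_ne_empty]
      intro h0
      exact hc0 (Finsupp.support_eq_empty.mp h0)
    obtain ⟨γ, hγ⟩ := this
    exact ⟨γ 0, γ, hγ, 0, rfl⟩
  have hIc : IsCompact I := by
    have : I = ⋃ γ ∈ c.support, Set.range γ := by
      ext z
      simp only [hI, Set.mem_setOf_eq, Set.mem_iUnion, Set.mem_range, exists_prop]
    rw [this]
    exact c.support.isCompact_biUnion (fun γ _ => isCompact_range γ.continuous)
  -- vertices in `h`
  set Hs : Finset V := Finset.univ.filter (fun v => p v ∈ h) with hHs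
  have hHne : Hs.Nonempty := by
    obtain ⟨z, hz⟩ := hIne
    obtain ⟨v, _, hv⟩ := UN_vertex S p h hh z (hIpre z hz)
    exact ⟨v, by simp [hHs, hv]⟩
  have hVne : (Finset.univ : Finset V).Nonempty := by
    obtain ⟨v, _⟩ := hHne
    exact ⟨v, Finset.mem_univ v⟩
  have hgcont : Continuous (fun z : V → ℝ => Hs.sup' hHne (fun v => z v)) := by
    apply Continuous.finset_sup'_apply
    intro v _
    exact continuous_apply v
  obtain ⟨z0, hz0, hmin⟩ := hIc.exists_isMinOn hIne hgcont.continuousOn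
  set m0 : ℝ := Hs.sup' hHne (fun v => z0 v) with hm0
  have hm0pos : 0 < m0 := by
    obtain ⟨v, hv, hvh⟩ := UN_vertex S p h hh z0 (hIpre z0 hz0)
    refine lt_of_lt_of_le hv ?_
    exact Finset.le_sup' (fun v => z0 v) (by simp [hHs, hvh])
  have hcardV : (0 : ℝ) < Fintype.card V := by
    have : 0 < Fintype.card V := by
      rw [← Finset.card_univ]; exact Finset.card_pos.mpr hVne
    exact_mod_cast this
  set m : ℝ := min m0 (1 / (Fintype.card V : ℝ)) with hm
  have hmpos : 0 < m := lt_min hm0pos (by positivity)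
  -- the vertex functions
  have hr1 : ∀ z : V → ℝ, ∃ v ∈ Hs, Hs.sup' hHne (fun v => z v) = z v := fun z =>
    Finset.exists_mem_eq_sup' hHne (fun v => z v)
  have hr2 : ∀ z : V → ℝ, ∃ v ∈ (Finset.univ : Finset V), ∀ u ∈ (Finset.univ : Finset V),
      z u ≤ z v := fun z => Finset.exists_max_image _ _ hVne
  choose r1 hr1H hr1E using hr1
  choose r2 _ hr2M using hr2
  set r : (V → ℝ) → V := fun z => if z ∈ I then r1 z else r2 z with hr
  have hrI : ∀ z ∈ I, p (r z) ∈ h ∧ m ≤ z (r z) := by
    intro z hz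
    have h1 : r z = r1 z := by simp [hr, hz]
    rw [h1]
    constructor
    · have := hr1H z
      simpa [hHs] using this
    · rw [← hr1E z]
      exact (min_le_left _ _).trans (hmin hz)
  have hrM : ∀ z ∈ S.space, m ≤ z (r z) := by
    intro z hz
    by_cases hzI : z ∈ I
    · exact (hrI z hzI).2
    · have h1 : r z = r2 z := by simp [hr, hzI]
      rw [h1]
      refine (min_le_right _ _).trans ?_
      obtain ⟨s, _, _, hsum, _⟩ := hz
      rw [div_le_iff₀ hcardV]
      calc (1 : ℝ) = ∑ v, z v := hsum.symm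
        _ ≤ ∑ v : V, z (r2 z) := Finset.sum_le_sum (fun v _ => hr2M z v (Finset.mem_univ _))
        _ = z (r2 z) * Fintype.card V := by
          rw [Finset.sum_const, Finset.card_univ, nsmul_eq_mul, mul_comm]
  -- the subdivision
  have e1 : ∀ᶠ n : ℕ in atTop, ∀ γ ∈ c.support, ∀ x y : unitInterval,
      dist x y ≤ 1 / (n : ℝ) → ∀ v, |γ x v - γ y v| < m :=
    (Filter.eventually_all_finset _).mpr (fun γ _ => UN_unif γ m hmpos)
  have e2 : ∀ᶠ n : ℕ in atTop, ∀ τ ∈ w.support, ∀ x y : D2,
      dist x y ≤ 1 / (n : ℝ) → ∀ v, |τ x v - τ y v| < m :=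
    (Filter.eventually_all_finset _).mpr (fun τ _ => UN_unif τ m hmpos)
  obtain ⟨n, hn1, hn2, hn3⟩ := (e1.and (e2.and (eventually_gt_atTop 0))).exists
  refine ⟨r, n, hn3, ?_, ?_, ?_⟩
  · intro γ hγ t
    exact (hrI (γ t) ⟨γ, hγ, t, rfl⟩).1
  · intro γ hγ t t' htt
    have h1 := hn1 γ hγ t t' (by rw [Subtype.dist_eq, Real.dist_eq]; exact htt) (r (γ t'))
    have h2 := (hrI (γ t') ⟨γ, hγ, t', rfl⟩).2
    have h3 := (abs_lt.mp h1).1
    linarith
  · intro τ hτ x y hxy
    have h1 := hn2 τ hτ x y (by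
      rw [Subtype.dist_eq, dist_pi_le_iff (by positivity)]
      intro k
      rw [Real.dist_eq]
      exact hxy k) (r (τ y))
    have h2 := hrM (τ y) (hw τ hτ y)
    have h3 := (abs_lt.mp h1).1
    linarith

end Pool.Agent.helper45.TF
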